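import Pool.Agent.Helper92.GG.Stmts
import Pool.Agent.Helper92.GG.RK

set_option autoImplicit false

namespace Pool.Agent.Helper92.GG

open MvPolynomial
open Pool.Agent.Helper49.Girth (cl mem_cl mem_cl' coe_cl subset_cl mem_cl_of_mem cl_le_cl cl_mono)

universe u

theorem st_BIG : ST_BIG.{u} := by
  intro K L _ _ _
  have htow : IsScalarTower K L (AlgebraicClosure (FractionRing (MvPolynomial ℕ L))) :=
    inferInstance
  refine ⟨AlgebraicClosure (FractionRing (MvPolynomial ℕ L)), inferInstance, inferInstance,
    inferInstance, htow, ?_⟩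
  refine ⟨inferInstance, ?_⟩
  intro s hs
  by_contra hcon
  push Not at hcon
  let g : MvPolynomial ℕ L →ₐ[L] AlgebraicClosure (FractionRing (MvPolynomial ℕ L)) :=
    (IsScalarTower.toAlgHom L (FractionRing (MvPolynomial ℕ L))
      (AlgebraicClosure (FractionRing (MvPolynomial ℕ L)))).comp
      (IsScalarTower.toAlgHom L (MvPolynomial ℕ L) (FractionRing (MvPolynomial ℕ L)))
  have hg : Function.Injective g :=
    (algebraMap (FractionRing (MvPolynomial ℕ L))
      (AlgebraicClosure (FractionRing (MvPolynomial ℕ L)))).injective.comp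
      (IsFractionRing.injective (MvPolynomial ℕ L) (FractionRing (MvPolynomial ℕ L)))
  have h1 : AlgebraicIndependent L (fun i : ℕ => g (X i)) :=
    (MvPolynomial.algebraicIndependent_X ℕ L).map' hg
  have h2 : AlgebraicIndependent K (fun i : ℕ => g (X i)) :=
    h1.restrictScalars (algebraMap K L).injective
  have h3 : AlgebraicIndependent K (fun i : Fin (s.ncard + 1) => g (X (i : ℕ))) :=
    h2.comp (fun i : Fin (s.ncard + 1) => (i : ℕ)) Fin.val_injective
  have h4 := rk_range_of_algebraicIndependent h3
  have h5 : rk K (Set.range fun i : Fin (s.ncard + 1) => g (X (i : ℕ))) ≤ rk K s :=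
    rk_le_of_subset_cl hs (fun a _ => hcon a)
  have h6 := rk_le_ncard (K := K) hs
  rw [h4, Nat.card_fin] at h5
  omega

end Pool.Agent.Helper92.GG
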