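import Pool.Agent.Helper92.GG.Stmts
import Pool.Agent.Helper92.GG.Walk
import Pool.Agent.Helper61.GG.BIG

set_option autoImplicit false

namespace Pool.Agent.Helper92.GG

open MvPolynomial
open Pool.Agent.Helper49.Girth (cl mem_cl mem_cl' coe_cl subset_cl mem_cl_of_mem cl_le_cl cl_mono
  root_mem_cl aeval_mem ty ty_zero ty_succ ty_add ty_two ty_add_two ty_not)

universe u

/-- Independent elements in big fields. -/
theorem MOORE_indep {K Ω : Type u} [Field K] [Field Ω] [Algebra K Ω] [hB : Big K Ω] (A : Set Ω)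
    (hA : A.Finite) (κ : Type) [Finite κ] : ∃ T : κ → Ω, AlgebraicIndependent (cl K A) T := by
  induction κ using Finite.induction_empty_option with
  | of_equiv e ih =>
    obtain ⟨T, hT⟩ := ih
    exact ⟨T ∘ e.symm, hT.comp e.symm e.symm.injective⟩
  | h_empty => exact ⟨PEmpty.elim, algebraicIndependent_empty_type⟩
  | h_option ih =>
    obtain ⟨T, hT⟩ := ih
    obtain ⟨a, ha⟩ := hB.big (A ∪ Set.range T) (hA.union (Set.finite_range T))
    refine ⟨fun o => o.elim a T, ?_⟩
    have h1 : a ∉ cl (cl K A) (Set.range T) := fun h => ha (cl_cl_mem.mp h)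
    rw [hT.option_iff_transcendental]
    exact fun h => h1 (mem_cl'.mpr h)

/-- generic steps for arbitrary prime ideals `P` -/
theorem MOORE_step (hC : ST_CONJ.{u}) (hCR : ST_CONJR.{u}) {K Ω : Type u} [Field K] [Field Ω]
    [Algebra K Ω] [hB : Big K Ω] {n : ℕ} {P : Ideal (MvPolynomial (Fin n ⊕ Fin n) K)} {τ : Bool}
    {x₀ y₀ x : Fin n → Ω} (he : Edge P τ x₀ y₀) (hx : Vtx P τ x) (A : Set Ω) (hA : A.Finite)
    (hxA : Set.range x ⊆ A) :
    ∃ y : Fin n → Ω, Edge P τ x y ∧
      rk K (A ∪ Set.range y) + rk K (Set.range x₀) =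
        rk K A + rk K (Set.range x₀ ∪ Set.range y₀) := by
  have := hB.alg
  obtain ⟨J, j1, j2, j3⟩ := exists_basis_family (K := cl K (Set.range x₀)) y₀
  obtain ⟨T, hT⟩ := MOORE_indep (K := K) A hA J
  obtain ⟨θ₀, hθ₀⟩ := hC K Ω Ω (Fin n) x₀ x (he.vtx.conj hx)
  have hθA : ∀ b : cl K (Set.range x₀), θ₀ b ∈ cl K A := by
    intro b
    have h1 : (Subtype.val '' (Set.range fun c => (⟨x₀ c, subset_cl _ ⟨c, rfl⟩⟩ :
        cl K (Set.range x₀))) : Set Ω) = Set.range x₀ := by
      rw [← Set.range_comp]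
      rfl
    have h2 := map_mem_cl_val (cl K (Set.range x₀)) θ₀
      (s := Set.range fun c => (⟨x₀ c, subset_cl _ ⟨c, rfl⟩⟩ : cl K (Set.range x₀)))
      (Set.finite_range _) (a := b) (by rw [h1]; exact b.2)
    refine cl_mono ?_ h2
    rintro _ ⟨_, ⟨c, rfl⟩, rfl⟩
    rw [hθ₀ c _ rfl]
    exact hxA ⟨c, rfl⟩
  obtain ⟨θ, hθ1, hθ2⟩ := hCR K Ω Ω (Set.range x₀) θ₀ J (fun j => y₀ j) T (by
    intro f
    constructor
    · intro h
      have := (algebraicIndependent_iff.mp j1) f h
      rw [this, eval₂_zero]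
    · intro h
      let φ : cl K (Set.range x₀) →+* cl K A :=
        { toFun := fun b => ⟨θ₀ b, hθA b⟩
          map_one' := by ext; simp
          map_mul' := by intro a b; ext; simp
          map_zero' := by ext; simp
          map_add' := by intro a b; ext; simp }
      have h3 : aeval T (map φ f) = 0 := by
        rw [aeval_def, eval₂_map]
        exact h
      have h4 := (algebraicIndependent_iff.mp hT) _ h3
      have h5 : f = 0 := (MvPolynomial.map_injective φ φ.injective) (by rw [h4, map_zero])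
      rw [h5, map_zero])
  have hy₀ : ∀ c, y₀ c ∈ cl K (Set.range x₀ ∪ Set.range fun j : J => y₀ j) :=
    fun c => cl_cl_mem.mp (j2 c)
  have hx₀ : ∀ c, x₀ c ∈ cl K (Set.range x₀ ∪ Set.range fun j : J => y₀ j) :=
    fun c => subset_cl _ (Or.inl ⟨c, rfl⟩)
  have hyT : ∀ j : J, θ ⟨y₀ j, hy₀ j⟩ = T j := fun j => hθ2 j _ rfl
  have hθx : ∀ c (b : cl K (Set.range x₀ ∪ Set.range fun j : J => y₀ j)), (b : Ω) = x₀ c →
      θ b = x c := by
    intro c b hb
    rw [hθ1 ⟨x₀ c, subset_cl _ ⟨c, rfl⟩⟩ b hb]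
    exact hθ₀ c _ rfl
  refine ⟨fun c => θ ⟨y₀ c, hy₀ c⟩, ?_, ?_⟩
  · refine (edge_map_cl θ hx₀ hy₀ hθx ?_).mp he
    intro c b hb
    congr 1
    exact Subtype.ext hb
  · have hfy : (Set.range fun c => θ ⟨y₀ c, hy₀ c⟩).Finite := Set.finite_range _
    rw [rk_union_eq hA hfy, rk_union_eq (Set.finite_range x₀) (Set.finite_range y₀)]
    have h1 : rk (cl K A) (Set.range fun c => θ ⟨y₀ c, hy₀ c⟩) = rk (cl K A) (Set.range T) := by
      apply rk_congr
      apply le_antisymm
      · apply cl_le_cl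
        rintro _ ⟨c, rfl⟩
        rw [cl_cl_mem]
        have h2 := map_mem_cl_val (cl K (Set.range x₀ ∪ Set.range fun j : J => y₀ j)) θ
          (s := (Set.range fun c => (⟨x₀ c, hx₀ c⟩ :
            cl K (Set.range x₀ ∪ Set.range fun j : J => y₀ j))) ∪
            Set.range fun j : J => (⟨y₀ j, hy₀ j⟩ :
              cl K (Set.range x₀ ∪ Set.range fun j : J => y₀ j)))
          ((Set.finite_range _).union (Set.finite_range _)) (a := ⟨y₀ c, hy₀ c⟩) (by
            rw [Set.image_union, ← Set.range_comp, ← Set.range_comp]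
            exact hy₀ c)
        refine cl_mono ?_ h2
        rintro _ ⟨_, (⟨d, rfl⟩ | ⟨j, rfl⟩), rfl⟩
        · left
          rw [hθx d _ rfl]
          exact hxA ⟨d, rfl⟩
        · right
          exact ⟨j, (hyT j).symm⟩
      · apply cl_mono
        rintro _ ⟨j, rfl⟩
        exact ⟨j, hyT j⟩
    rw [h1, rk_range_of_algebraicIndependent hT, Nat.card_coe_set_eq, j3]
    ring

/-- generic walks -/
theorem MOORE_walk (hC : ST_CONJ.{u}) (hCR : ST_CONJR.{u}) {K Ω : Type u} [Field K] [Field Ω]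
    [Algebra K Ω] [hB : Big K Ω] {n : ℕ} {P : Ideal (MvPolynomial (Fin n ⊕ Fin n) K)}
    (R : Bool → ℕ) (d : Bool → ℕ) (x₀ y₀ : Bool → Fin n → Ω)
    (he : ∀ τ, Edge P τ (x₀ τ) (y₀ τ)) (hR : ∀ τ, rk K (Set.range (x₀ τ)) = R τ)
    (hd : ∀ τ, rk K (Set.range (x₀ τ) ∪ Set.range (y₀ τ)) = R τ + d τ) (hd1 : ∀ τ, 1 ≤ d τ)
    (σ : Bool) (r : ℕ) :
    ∃ v : ℕ → Fin n → Ω, IsWalk P σ r v ∧ Vtx P σ (v 0) ∧ NB r v ∧
      rk K (pts v (Set.Iic r)) = R σ + ∑ i ∈ Finset.range r, d (ty σ i) := by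
  induction r with
  | zero =>
    refine ⟨fun _ => x₀ σ, isWalk_zero _ _, (he σ).vtx, nb_zero _, ?_⟩
    rw [pts_Iic_zero, hR]
    simp
  | succ r ih =>
    obtain ⟨v, h1, h2, h3, h4⟩ := ih
    have h5 := h1.vtx' h2 le_rfl
    obtain ⟨y, hy1, hy2⟩ := MOORE_step hC hCR (he (ty σ r)) h5 (pts v (Set.Iic r))
      (pts_Iic_finite v r) (range_subset_pts v (Set.mem_Iic.mpr le_rfl))
    rw [hR, hd] at hy2
    refine ⟨wsnoc r v y, h1.snoc hy1, ?_, h3.snoc ?_, ?_⟩
    · rw [wsnoc_of_le _ _ (Nat.zero_le r)]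
      exact h2
    · intro hr hc
      have h6 : Set.range y ⊆ cl K (pts v (Set.Iic r)) := by
        rw [← hc]
        exact fun a ha => mem_cl_of_mem (range_subset_pts v (Set.mem_Iic.mpr (by omega)) ha)
      rw [rk_union_of_subset_cl h6] at hy2
      have := hd1 (ty σ r)
      omega
    · rw [pts_wsnoc, Finset.sum_range_succ]
      omega

/-- conjugation over a bigger field -/
theorem MOORE_restrict {K L L' : Type u} [Field K] [Field L] [Field L'] [Algebra K L]
    [Algebra K L'] {k : Type u} [Field k] [Algebra K k] [Algebra k L] [Algebra k L']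
    [IsScalarTower K k L] [IsScalarTower K k L'] {ι : Type} {y : ι → L} {y' : ι → L'}
    (h : Conj k y y') : Conj K y y' := by
  intro f
  have := h (map (algebraMap K k) f)
  rwa [aeval_map_algebraMap, aeval_map_algebraMap] at this

/-- the vertices of a walk of length `m` are algebraic over the ends -/
theorem MOORE_ends (hF : ST_FREE.{u}) {K Ω : Type u} [Field K] [Field Ω]
    [Algebra K Ω] [hB : Big K Ω] {n m : ℕ} {P : Ideal (MvPolynomial (Fin n ⊕ Fin n) K)}
    (hU : Uniq P m) (σ : Bool) (v : ℕ → Fin n → Ω) (hv : IsWalk P σ m v) (hnb : NB m v) :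
    rk K (pts v (Set.Iic m)) ≤ rk K (Set.range (v 0)) + rk K (Set.range (v m)) := by
  have hfA := pts_Iic_finite v m
  have hf0 := Set.finite_range (v 0)
  have hfm := Set.finite_range (v m)
  have hs0 : Set.range (v 0) ⊆ pts v (Set.Iic m) :=
    range_subset_pts v (Set.mem_Iic.mpr (Nat.zero_le m))
  have hsm : Set.range (v m) ⊆ pts v (Set.Iic m) :=
    range_subset_pts v (Set.mem_Iic.mpr le_rfl)
  have hsA : Set.range (v 0) ∪ Set.range (v m) ⊆ pts v (Set.Iic m) := Set.union_subset hs0 hsm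
  obtain ⟨y', hy1, hy2⟩ := hF K Ω (Set.range (v 0) ∪ Set.range (v m)) (pts v (Set.Iic m))
    (hf0.union hfm) hfA hsA (Fin (m + 1) × Fin n) (fun p => v p.1 p.2)
  have hrange : (Set.range fun p : Fin (m + 1) × Fin n => v p.1 p.2) = pts v (Set.Iic m) := by
    ext a
    rw [mem_pts]
    constructor
    · rintro ⟨⟨i, c⟩, rfl⟩
      exact ⟨i, Nat.lt_succ_iff.mp i.2, c, rfl⟩
    · rintro ⟨i, hi, c, rfl⟩
      exact ⟨(⟨i, Nat.lt_succ_iff.mpr hi⟩, c), rfl⟩
  set v' : ℕ → Fin n → Ω := fun i c => if h : i < m + 1 then y' (⟨i, h⟩, c) else 0 with hv'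
  have hv'i : ∀ i (h : i < m + 1) c, v' i c = y' (⟨i, h⟩, c) := fun i h c => dif_pos h
  have hK : Conj K (fun p : Fin (m + 1) × Fin n => v p.1 p.2) y' := MOORE_restrict hy1
  have hfix : ∀ (i : ℕ) (h : i < m + 1) (c : Fin n),
      v i c ∈ Set.range (v 0) ∪ Set.range (v m) → v' i c = v i c := by
    intro i h c hmem
    have := (hy1 (X (⟨i, h⟩, c) - C ⟨v i c, subset_cl _ hmem⟩)).mp (by
      rw [map_sub, aeval_X, aeval_C]
      exact sub_self _)
    rw [map_sub, aeval_X, aeval_C, sub_eq_zero] at this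
    rw [hv'i i h c]
    exact this
  have hw' : IsWalk P σ m v' := by
    intro i hi
    refine (hv i hi).of_conj ?_
    have := hK.comp (Sum.elim (fun c : Fin n => ((⟨i, by omega⟩ : Fin (m + 1)), c))
      (fun c : Fin n => ((⟨i + 1, by omega⟩ : Fin (m + 1)), c)))
    have e1 : (fun p : Fin (m + 1) × Fin n => v p.1 p.2) ∘
        (Sum.elim (fun c : Fin n => ((⟨i, by omega⟩ : Fin (m + 1)), c))
          (fun c : Fin n => ((⟨i + 1, by omega⟩ : Fin (m + 1)), c))) =
        Sum.elim (v i) (v (i + 1)) := by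
      funext a
      cases a <;> rfl
    have e2 : y' ∘ (Sum.elim (fun c : Fin n => ((⟨i, by omega⟩ : Fin (m + 1)), c))
          (fun c : Fin n => ((⟨i + 1, by omega⟩ : Fin (m + 1)), c))) =
        Sum.elim (v' i) (v' (i + 1)) := by
      funext a
      cases a with
      | inl c => exact (hv'i i (by omega) c).symm
      | inr c => exact (hv'i (i + 1) (by omega) c).symm
    rw [e1, e2] at this
    exact this
  have hn' : NB m v' := by
    intro i hi hc
    apply hnb i hi
    funext c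
    have := (hK (X (⟨i, by omega⟩, c) - X (⟨i + 2, by omega⟩, c))).mpr (by
      rw [map_sub, aeval_X, aeval_X, ← hv'i, ← hv'i, hc, sub_self])
    rw [map_sub, aeval_X, aeval_X, sub_eq_zero] at this
    exact this
  have h0 : v 0 = v' 0 := by
    funext c
    exact (hfix 0 (by omega) c (Or.inl ⟨c, rfl⟩)).symm
  have hm' : v m = v' m := by
    funext c
    exact (hfix m (by omega) c (Or.inr ⟨c, rfl⟩)).symm
  obtain ⟨-, hall⟩ := hU Ω σ m m v v' (by omega) hv hw' hnb hn' h0 rfl hm'
  have hrange' : Set.range y' ⊆ pts v (Set.Iic m) := by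
    rintro _ ⟨⟨i, c⟩, rfl⟩
    have h1 := hall i (Nat.lt_succ_iff.mp i.2)
    have h2 : y' (i, c) = v i c := by
      rw [h1, hv'i i i.2 c]
    rw [h2]
    exact coord_mem_pts v (Set.mem_Iic.mpr (Nat.lt_succ_iff.mp i.2)) c
  rw [Set.union_eq_left.mpr hrange', hrange, Set.union_eq_right.mpr hsA] at hy2
  have h3 := rk_union_le (K := K) hf0 hfm
  omega

theorem MOORE_sum (d : Bool → ℕ) (m : ℕ) :
    (∑ i ∈ Finset.range m, d (ty true i)) + (∑ i ∈ Finset.range m, d (ty false i)) =
      m * (d true + d false) := by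
  rw [← Finset.sum_add_distrib]
  have : ∀ i, d (ty true i) + d (ty false i) = d true + d false := by
    intro i
    have h1 : ty false i = !(ty true i) := ty_not true i
    rw [h1]
    cases ty true i
    · rw [Bool.not_false, add_comm]
    · rw [Bool.not_true]
  simp only [this, Finset.sum_const, Finset.card_range, smul_eq_mul]

theorem st_MOORE (hC : ST_CONJ.{u}) (hCR : ST_CONJR.{u}) (hF : ST_FREE.{u}) :
    ST_MOORE.{u} := by
  intro K _ _ n m N P hm hU L _ _ x y hxy ha hb he he1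
  -- ranks of arbitrary edges
  have rkx : ∀ (L' : Type u) [Field L'] [Algebra K L'] (x' y' : Fin n → L'), Edge P true x' y' →
      rk K (Set.range x') = rk K (Set.range x) := fun L' _ _ x' y' h =>
    (h.vtx.conj hxy.vtx).rk_eq
  have rky : ∀ (L' : Type u) [Field L'] [Algebra K L'] (x' y' : Fin n → L'), Edge P true x' y' →
      rk K (Set.range y') = rk K (Set.range y) := fun L' _ _ x' y' h =>
    (h.vtx_right.conj hxy.vtx_right).rk_eq
  have rkxy : ∀ (L' : Type u) [Field L'] [Algebra K L'] (x' y' : Fin n → L'),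
      Edge P true x' y' → rk K (Set.range x' ∪ Set.range y') =
        rk K (Set.range x ∪ Set.range y) := fun L' _ _ x' y' h => by
    rw [← range_sum_elim, ← range_sum_elim]
    exact (h.conj hxy).rk_eq
  obtain ⟨Ω, i1, i2, i3, i4, i5⟩ := st_BIG K L
  have hle := rk_union_le (K := K) (Set.finite_range x) (Set.finite_range y)
  have hax := rk_mono (K := K) ((Set.finite_range x).union (Set.finite_range y))
    (Set.subset_union_left (s := Set.range x) (t := Set.range y))
  have hby := rk_mono (K := K) ((Set.finite_range x).union (Set.finite_range y))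
    (Set.subset_union_right (s := Set.range x) (t := Set.range y))
  obtain ⟨a, haa⟩ : ∃ a, a = rk K (Set.range x) := ⟨_, rfl⟩
  obtain ⟨b, hbb⟩ : ∃ b, b = rk K (Set.range y) := ⟨_, rfl⟩
  obtain ⟨e, hee⟩ : ∃ e, e = rk K (Set.range x ∪ Set.range y) := ⟨_, rfl⟩
  rw [← haa] at rkx ha hle hax
  rw [← hbb] at rky hb hle hby
  rw [← hee] at rkxy he he1 hle hax hby
  obtain ⟨s, hs⟩ : ∃ s, e = a + s := ⟨e - a, by omega⟩
  obtain ⟨s', hs'⟩ : ∃ s', e = b + s' := ⟨e - b, by omega⟩
  have hN : 1 ≤ N := by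
    rcases Nat.eq_zero_or_pos N with h | h
    · omega
    · exact h
  have hma : m * a ≤ m * N := Nat.mul_le_mul_left m ha
  have hmb : m * b ≤ m * N := Nat.mul_le_mul_left m hb
  have e1 : m * e = m * a + m * s := by rw [hs, Nat.mul_add]
  have e2 : m * e = m * b + m * s' := by rw [hs', Nat.mul_add]
  have e3 : (m + 1) * N = m * N + N := by ring
  have hms : N ≤ m * s := by omega
  have hms' : N ≤ m * s' := by omega
  have hs1 : 1 ≤ s := by
    rcases Nat.eq_zero_or_pos s with h | h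
    · rw [h] at hms; omega
    · exact h
  have hs1' : 1 ≤ s' := by
    rcases Nat.eq_zero_or_pos s' with h | h
    · rw [h] at hms'; omega
    · exact h
  -- the edge in the big field
  have hE : Edge P true (fun c => algebraMap L Ω (x c)) (fun c => algebraMap L Ω (y c)) :=
    Edge.map (IsScalarTower.toAlgHom K L Ω) hxy
  have r1 := rkx Ω _ _ hE
  have r2 := rky Ω _ _ hE
  have r3 := rkxy Ω _ _ hE
  obtain ⟨X0, hX0⟩ : ∃ X0 : Fin n → Ω, X0 = fun c => algebraMap L Ω (x c) := ⟨_, rfl⟩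
  obtain ⟨Y0, hY0⟩ : ∃ Y0 : Fin n → Ω, Y0 = fun c => algebraMap L Ω (y c) := ⟨_, rfl⟩
  rw [← hX0] at hE r1 r3
  rw [← hY0] at hE r2 r3
  have vrk : ∀ (τ : Bool) (z : Fin n → Ω), Vtx P τ z →
      rk K (Set.range z) = cond τ a b := by
    intro τ z hz
    cases τ
    · rw [(hz.conj hE.vtx_right).rk_eq]
      exact r2
    · rw [(hz.conj hE.vtx).rk_eq]
      exact r1
  have hwalk := MOORE_walk hC hCR (P := P) (fun τ => cond τ a b) (fun τ => cond τ s s')
    (fun τ => cond τ X0 Y0) (fun τ => cond τ Y0 X0)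
    (by intro τ; cases τ; exacts [hE.symm, hE])
    (by intro τ; cases τ; exacts [r2, r1])
    (by
      intro τ
      cases τ
      · show rk K (Set.range Y0 ∪ Set.range X0) = b + s'
        rw [Set.union_comm, r3, hs']
      · show rk K (Set.range X0 ∪ Set.range Y0) = a + s
        rw [r3, hs])
    (by intro τ; cases τ; exacts [hs1', hs1])
  have bound : ∀ σ : Bool, ∑ i ∈ Finset.range m, cond (ty σ i) s s' ≤ cond (ty σ m) a b := by
    intro σ
    obtain ⟨v, w1, w2, w3, w4⟩ := hwalk σ m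
    have h1 := MOORE_ends hF hU σ v w1 w3
    rw [w4, vrk σ _ w2, vrk (ty σ m) _ (w1.vtx' w2 le_rfl)] at h1
    omega
  have b1 := bound true
  have b2 := bound false
  have hsum := MOORE_sum (fun τ => cond τ s s') m
  have hab : cond (ty true m) a b + cond (ty false m) a b = a + b := by
    have h1 : ty false m = !(ty true m) := ty_not true m
    rw [h1]
    cases ty true m
    · exact add_comm _ _
    · rfl
  simp only [cond_true, cond_false] at hsum
  have hmss : m * (s + s') = m * s + m * s' := Nat.mul_add _ _ _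
  have f1 : m * s = N := by omega
  have f2 : m * s' = N := by omega
  have f3 : a = N := by omega
  have f4 : b = N := by omega
  have f5 : s = s' := Nat.eq_of_mul_eq_mul_left (by omega : 0 < m) (by rw [f1, f2])
  have g1 : (m + 1) * s = m * s + s := by ring
  refine ⟨s, ⟨P, hm, hs1, hU, ⟨L, inferInstance, inferInstance, x, y, hxy⟩, ?_, ?_⟩, rfl⟩
  · intro L' _ _ σ x' y' h
    cases σ
    · have := rky L' _ _ h.symm
      omega
    · have := rkx L' _ _ h
      omega
  · intro L' _ _ σ x' y' h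
    cases σ
    · have := rkxy L' _ _ h.symm
      rw [Set.union_comm]
      omega
    · have := rkxy L' _ _ h
      omega

end Pool.Agent.Helper92.GG
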